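import Pool.Agent.V7H48.IP.Main

/-!
# Sign patterns of Legendre symbols for arbitrary small sets of integers, almost all primes
-/

set_option autoImplicit false

namespace Pool.Agent.V7H48.IP

open Finset Pool.Agent.N793.PG Pool.Agent.V7H48.SP
open Pool.Agent.Results.MP_f6e9a2_nt.AlmostAllPrimes (Bad)

theorem large_pow (C s : ℝ) (hs : 0 < s) : ∃ M : ℝ, ∀ m : ℝ, M ≤ m → C ≤ m ^ s := by
  obtain ⟨M, hM⟩ := Filter.eventually_atTop.1 ((tendsto_rpow_atTop hs).eventually_ge_atTop C)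
  exact ⟨M, hM⟩

theorem small_sets (K : ℕ) : ∃ δ : ℝ, 0 < δ ∧ ∃ Q₀ : ℕ, ∀ (Q : ℕ) (A B : Finset ℤ) (m : ℝ),
    Q₀ ≤ Q → (∀ a ∈ A, |a| ≤ (Q : ℤ) ^ K) → (∀ b ∈ B, |b| ≤ (Q : ℤ) ^ K) →
      Real.log Q ^ 8 ≤ m → m ≤ A.card → m ≤ B.card →
        ∃ E : Finset ℕ, (E.card : ℝ) ≤ Q / m ^ δ ∧
          ∀ p : ℕ, p.Prime → p ≠ 2 → p ≤ Q → p ∉ E → Good p A B (m ^ δ) := by
  classical
  obtain ⟨C₁, hC₁, c₁, hc₁, hbad⟩ := Pool.Agent.Results.MP_f6e9a2_nt.AlmostAllPrimes.result.1 K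
  obtain ⟨C₂, hC₂, hcoin⟩ := few_coin K
  set γ : ℝ := min (c₁ / 32) (1 / (16 * (K + 1))) with hγ
  have hK0 : (0 : ℝ) ≤ K := Nat.cast_nonneg _
  have hγ0 : 0 < γ := lt_min (by positivity) (by positivity)
  have hγc : 8 * γ ≤ c₁ / 4 := by
    have := min_le_left (c₁ / 32) (1 / (16 * ((K : ℝ) + 1)))
    rw [← hγ] at this
    linarith
  have hγK : γ * (K + 1) ≤ 1 / 16 := by
    have := min_le_right (c₁ / 32) (1 / (16 * ((K : ℝ) + 1)))
    rw [← hγ] at this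
    calc γ * (K + 1) ≤ 1 / (16 * ((K : ℝ) + 1)) * (K + 1) := by gcongr
      _ = 1 / 16 := by field_simp
  have hγ1 : γ ≤ 1 / 16 := by nlinarith
  set δ : ℝ := γ / 16 with hδ
  have hδ0 : 0 < δ := by positivity
  obtain ⟨M₁, hM₁⟩ := large_pow (2 * C₁) (8 * γ - δ) (by rw [hδ]; linarith)
  obtain ⟨M₂, hM₂⟩ := large_pow 10 (γ - 7 * δ) (by rw [hδ]; linarith)
  obtain ⟨M₃, hM₃⟩ := large_pow 3 (1 - 3 * δ) (by rw [hδ]; linarith)
  obtain ⟨M₄, hM₄⟩ := large_pow 3 δ hδ0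
  obtain ⟨M₅, hM₅⟩ := large_pow (2 * C₂) (5 / 8) (by norm_num)
  set M : ℝ := max 1 (max M₁ (max M₂ (max M₃ M₄))) with hM
  refine ⟨δ, hδ0, max 3 (max ⌈Real.exp M⌉₊ ⌈M₅⌉₊), fun Q A B m hQ hA hB hLm hmA hmB => ?_⟩
  have hQ3 : 3 ≤ Q := (le_max_left _ _).trans hQ
  have hQ3r : (3 : ℝ) ≤ Q := by exact_mod_cast hQ3
  have hQ0 : (0 : ℝ) < Q := by linarith
  have hQe : Real.exp M ≤ Q := (Nat.le_ceil _).trans
    (by exact_mod_cast ((le_max_left _ _).trans (le_max_right _ _)).trans hQ)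
  have hQ5 : M₅ ≤ Q := (Nat.le_ceil _).trans
    (by exact_mod_cast ((le_max_right _ _).trans (le_max_right _ _)).trans hQ)
  set L : ℝ := Real.log Q with hL
  have hML : M ≤ L := by rw [hL, Real.le_log_iff_exp_le hQ0]; exact hQe
  have hM1 : 1 ≤ M := le_max_left _ _
  have hL1 : 1 ≤ L := hM1.trans hML
  have hLm' : L ≤ m := by
    refine le_trans ?_ hLm
    calc L = L ^ 1 := (pow_one L).symm
      _ ≤ L ^ 8 := pow_le_pow_right₀ hL1 (by norm_num)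
  have hMm : M ≤ m := hML.trans hLm'
  have hm1 : 1 ≤ m := hM1.trans hMm
  have hm0 : 0 < m := by linarith
  have g1 : 2 * C₁ ≤ m ^ (8 * γ - δ) := hM₁ m (by
    refine le_trans ?_ hMm; exact (le_max_left _ _).trans (le_max_right _ _))
  have g2 : 10 ≤ m ^ (γ - 7 * δ) := hM₂ m (by
    refine le_trans ?_ hMm
    exact ((le_max_left _ _).trans (le_max_right _ _)).trans (le_max_right _ _))
  have g3 : 3 ≤ m ^ (1 - 3 * δ) := hM₃ m (by
    refine le_trans ?_ hMm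
    exact (((le_max_left _ _).trans (le_max_right _ _)).trans (le_max_right _ _)).trans
      (le_max_right _ _))
  have g4 : 3 ≤ m ^ δ := hM₄ m (by
    refine le_trans ?_ hMm
    exact (((le_max_right _ _).trans (le_max_right _ _)).trans (le_max_right _ _)).trans
      (le_max_right _ _))
  have g5 : 2 * C₂ ≤ (Q : ℝ) ^ ((5 : ℝ) / 8) := hM₅ Q hQ5
  have hneA : A.Nonempty := card_pos.1 (by exact_mod_cast hm0.trans_le hmA)
  have hneB : B.Nonempty := card_pos.1 (by exact_mod_cast hm0.trans_le hmB)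
  have mp : ∀ x y : ℝ, m ^ x * m ^ y = m ^ (x + y) := fun x y => (Real.rpow_add hm0 x y).symm
  set κ : ℝ := m ^ (-γ) with hκ
  have hκ0 : 0 < κ := Real.rpow_pos_of_pos hm0 _
  have hκ1 : κ ≤ 1 := Real.rpow_le_one_of_one_le_of_nonpos hm1 (by linarith)
  -- the size of `m`
  have hmQ : m ≤ (Q : ℝ) ^ ((K : ℝ) + 1) := by
    have h1 : A ⊆ Icc (-(Q : ℤ) ^ K) ((Q : ℤ) ^ K) := by
      intro a ha
      rw [mem_Icc]
      exact abs_le.1 (hA a ha)
    have h2 := card_le_card h1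
    rw [Int.card_Icc] at h2
    have h3 : (((Q : ℤ) ^ K + 1 - -(Q : ℤ) ^ K).toNat : ℝ) = 2 * (Q : ℝ) ^ K + 1 := by
      have h4 : ((((Q : ℤ) ^ K + 1 - -(Q : ℤ) ^ K).toNat : ℤ) : ℝ) = 2 * (Q : ℝ) ^ K + 1 := by
        have h5 : (0 : ℤ) ≤ (Q : ℤ) ^ K := by positivity
        rw [Int.toNat_of_nonneg (by linarith)]
        push_cast
        ring
      exact_mod_cast h4
    have h4 : (A.card : ℝ) ≤ 2 * (Q : ℝ) ^ K + 1 := by
      rw [← h3]
      exact_mod_cast h2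
    have h5 : (1 : ℝ) ≤ (Q : ℝ) ^ K := one_le_pow₀ (by linarith)
    have h6 : (Q : ℝ) ^ ((K : ℝ) + 1) = (Q : ℝ) ^ K * Q := by
      rw [Real.rpow_add hQ0, Real.rpow_natCast, Real.rpow_one]
    rw [h6]
    calc m ≤ A.card := hmA
      _ ≤ 2 * (Q : ℝ) ^ K + 1 := h4
      _ ≤ (Q : ℝ) ^ K * 3 := by linarith
      _ ≤ _ := by gcongr
  -- the exceptional primes
  have hfin : (Bad Q κ A B).Finite :=
    (finite_toSet (range (Q + 1))).subset fun p hp => by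
      rw [mem_coe, mem_range]
      exact Nat.lt_succ_of_le hp.2.2.1
  set E₁ : Finset ℕ := hfin.toFinset with hE₁
  have hE₁c : (E₁.card : ℝ) ≤ Q / m ^ δ / 2 := by
    have h1 := hbad Q A B κ hQ3 hA hB hneA hneB hκ0 hκ1
    rw [Set.ncard_eq_toFinset_card _ hfin] at h1
    have h2 : m ≤ ((min A.card B.card : ℕ) : ℝ) := by
      rw [Nat.cast_min]
      exact le_min hmA hmB
    have h3 : L ^ 4 / ((min A.card B.card : ℕ) : ℝ) ≤ m ^ (-(1 / 2 : ℝ)) := by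
      have h4 : L ^ 4 ≤ m ^ (1 / 2 : ℝ) := by
        have h5 : (L ^ 8) ^ (1 / 2 : ℝ) = L ^ 4 := by
          rw [← Real.rpow_natCast L 8, ← Real.rpow_mul (by linarith), ← Real.rpow_natCast L 4]
          norm_num
        rw [← h5]
        exact Real.rpow_le_rpow (by positivity) hLm (by norm_num)
      calc L ^ 4 / ((min A.card B.card : ℕ) : ℝ) ≤ m ^ (1 / 2 : ℝ) / m := by gcongr
        _ = m ^ (-(1 / 2 : ℝ)) := by
            rw [div_eq_iff hm0.ne']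
            nth_rw 3 [← Real.rpow_one m]
            rw [mp]
            norm_num
    have h4 : (L ^ 4 / ((min A.card B.card : ℕ) : ℝ)) ^ c₁ ≤ m ^ (-(c₁ / 2)) := by
      calc _ ≤ (m ^ (-(1 / 2 : ℝ))) ^ c₁ := Real.rpow_le_rpow (by positivity) h3 hc₁.le
        _ = _ := by rw [← Real.rpow_mul hm0.le]; congr 1; ring
    have h5 : C₁ / κ ^ 8 = C₁ * m ^ (8 * γ) := by
      rw [hκ, ← Real.rpow_natCast, ← Real.rpow_mul hm0.le, div_eq_mul_inv, ← Real.rpow_neg hm0.le]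
      congr 2
      push_cast
      ring
    have h6 : (E₁.card : ℝ) ≤ C₁ * m ^ (8 * γ) * Q * m ^ (-(c₁ / 2)) := by
      refine h1.trans ?_
      rw [h5]
      gcongr
    refine h6.trans ?_
    rw [le_div_iff₀ (by norm_num), le_div_iff₀ (by positivity)]
    calc C₁ * m ^ (8 * γ) * Q * m ^ (-(c₁ / 2)) * 2 * m ^ δ =
        (2 * C₁) * (m ^ (8 * γ) * m ^ (-(c₁ / 2)) * m ^ δ) * Q := by ring
      _ ≤ m ^ (8 * γ - δ) * (m ^ (8 * γ) * m ^ (-(c₁ / 2)) * m ^ δ) * Q := by gcongr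
      _ = m ^ (16 * γ - c₁ / 2) * Q := by
          rw [mp, mp, mp]
          congr 2
          ring
      _ ≤ 1 * Q := by
          refine mul_le_mul_of_nonneg_right ?_ hQ0.le
          exact Real.rpow_le_one_of_one_le_of_nonpos hm1 (by linarith)
      _ = Q := one_mul _
  set E₂ : Finset ℕ := (range (Q + 1)).filter fun p => p.Prime ∧
    κ * (A.card * B.card : ℝ) < coin A B p with hE₂
  have hE₂c : (E₂.card : ℝ) ≤ Q / m ^ δ / 2 := by
    have h1 : (E₂.card : ℝ) ≤ C₂ / κ * (Q : ℝ) ^ ((1 : ℝ) / 4) :=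
      hcoin Q A B (by omega) hA hB hneA hneB κ E₂ hκ0 fun p hp => by
        rw [hE₂, mem_filter] at hp
        exact hp.2
    refine h1.trans ?_
    rw [le_div_iff₀ (by norm_num), le_div_iff₀ (by positivity)]
    have h2 : C₂ / κ = C₂ * m ^ γ := by
      rw [hκ, div_eq_mul_inv, ← Real.rpow_neg hm0.le, neg_neg]
    rw [h2]
    have h3 : m ^ γ * m ^ δ ≤ (Q : ℝ) ^ ((1 : ℝ) / 8) := by
      rw [mp]
      calc m ^ (γ + δ) ≤ m ^ (2 * γ) := Real.rpow_le_rpow_of_exponent_le hm1 (by rw [hδ]; linarith)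
        _ ≤ ((Q : ℝ) ^ ((K : ℝ) + 1)) ^ (2 * γ) := Real.rpow_le_rpow hm0.le hmQ (by linarith)
        _ = (Q : ℝ) ^ (((K : ℝ) + 1) * (2 * γ)) := by rw [← Real.rpow_mul hQ0.le]
        _ ≤ _ := Real.rpow_le_rpow_of_exponent_le (by linarith) (by linarith)
    calc C₂ * m ^ γ * (Q : ℝ) ^ ((1 : ℝ) / 4) * 2 * m ^ δ =
        (2 * C₂) * (m ^ γ * m ^ δ) * (Q : ℝ) ^ ((1 : ℝ) / 4) := by ring
      _ ≤ (Q : ℝ) ^ ((5 : ℝ) / 8) * (Q : ℝ) ^ ((1 : ℝ) / 8) * (Q : ℝ) ^ ((1 : ℝ) / 4) := by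
          gcongr
      _ = Q := by
          rw [← Real.rpow_add hQ0, ← Real.rpow_add hQ0]
          norm_num
  refine ⟨E₁ ∪ E₂, ?_, ?_⟩
  · have h1 : ((E₁ ∪ E₂).card : ℝ) ≤ E₁.card + E₂.card := by exact_mod_cast card_union_le _ _
    linarith
  intro p hp hp2 hpQ hpE
  rw [mem_union, not_or] at hpE
  refine good_of hp A B hneA hneB κ (m ^ δ) m hκ0 g4 hmA hmB ?_ ?_ ?_ ?_ ?_
  · intro f g
    by_contra hlt
    exact hpE.1 (by
      rw [hE₁, Set.Finite.mem_toFinset]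
      exact ⟨hp, hp2, hpQ, f, g, not_le.1 hlt⟩)
  · by_contra hlt
    exact hpE.2 (by
      rw [hE₂, mem_filter, mem_range]
      exact ⟨by omega, hp, not_le.1 hlt⟩)
  · calc (1 : ℝ) ≤ m ^ (-γ + δ + 1) := Real.one_le_rpow hm1 (by linarith)
      _ = _ := by rw [hκ, Real.rpow_add hm0, Real.rpow_add hm0, Real.rpow_one]
  · calc 10 * κ * (m ^ δ) ^ 7 ≤ m ^ (γ - 7 * δ) * κ * (m ^ δ) ^ 7 := by gcongr
      _ = 1 := by
          rw [hκ, ← Real.rpow_natCast (m ^ δ), ← Real.rpow_mul hm0.le, mp, mp]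
          have : γ - 7 * δ + -γ + δ * ((7 : ℕ) : ℝ) = 0 := by push_cast; ring
          rw [this, Real.rpow_zero]
  · calc 3 * (m ^ δ) ^ 3 ≤ m ^ (1 - 3 * δ) * (m ^ δ) ^ 3 := by gcongr
      _ = m := by
          rw [← Real.rpow_natCast (m ^ δ), ← Real.rpow_mul hm0.le, mp]
          have : 1 - 3 * δ + δ * ((3 : ℕ) : ℝ) = 1 := by push_cast; ring
          rw [this, Real.rpow_one]

end Pool.Agent.V7H48.IP
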