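import Mathlib

/-!
# Sign patterns of Legendre symbols along tuples of integers: definitions
-/

set_option autoImplicit false

namespace Pool.Agent.V7H48.IP

/-- the number of the `a ∈ A` with `(a + b 1 | p) = σ 1`, …, `(a + b k | p) = σ k` -/
noncomputable def signCount (p : ℕ) (A : Finset ℤ) {k : ℕ} (b : Fin k → ℤ) (σ : Fin k → ℤ) : ℕ :=
  Set.ncard {a | a ∈ A ∧ ∀ i, jacobiSym (a + b i) p = σ i}

/-- Each of the `2 ^ k` sign patterns along the tuple `b` is taken by the expected number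
`|A| / 2 ^ k` of the `a ∈ A`, up to a relative error `τ`. -/
def Balanced (p : ℕ) (A : Finset ℤ) {k : ℕ} (b : Fin k → ℤ) (τ : ℝ) : Prop :=
  ∀ σ : Fin k → ℤ, (∀ i, σ i = 1 ∨ σ i = -1) →
    |(signCount p A b σ : ℝ) - A.card / 2 ^ k| ≤ τ * (A.card / 2 ^ k)

/-- Every `l × k` matrix of signs is of the form `(a i + b j | p)` with different `a i ∈ A` and
different `b j ∈ B`. -/
def SignMatrices (p : ℕ) (A B : Finset ℤ) (l k : ℕ) : Prop :=
  ∀ σ : Fin l → Fin k → ℤ, (∀ i j, σ i j = 1 ∨ σ i j = -1) →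
    ∃ a : Fin l → ℤ, ∃ b : Fin k → ℤ, Function.Injective a ∧ Function.Injective b ∧
      (∀ i, a i ∈ A) ∧ (∀ j, b j ∈ B) ∧ ∀ i j, jacobiSym (a i + b j) p = σ i j

/-- The prime `p` is good for the pair `A`, `B` with the quality `q ≥ 1`: for all subsets `A'` of `A`
and `B'` of `B` with at least `|A| / q` and `|B| / q` elements, and all `k` with `2 ^ k ≤ q`, all but
`|B'| ^ k / q` of the tuples in `B' ^ k` are balanced for `A'`, with the relative error `1 / q`, and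
all `l × k` matrices of signs with `2 l 2 ^ k ≤ |A'|` occur on `A' × B'`. -/
def Good (p : ℕ) (A B : Finset ℤ) (q : ℝ) : Prop :=
  ∀ A' ⊆ A, ∀ B' ⊆ B, (A.card : ℝ) / q ≤ A'.card → (B.card : ℝ) / q ≤ B'.card →
    ∀ k : ℕ, (2 : ℝ) ^ k ≤ q →
      (Set.ncard {b : Fin k → ℤ | (∀ i, b i ∈ B') ∧ ¬ Balanced p A' b (1 / q)} : ℝ) ≤
        (B'.card : ℝ) ^ k / q ∧
      ∀ l : ℕ, 2 * l * 2 ^ k ≤ A'.card → SignMatrices p A' B' l k

end Pool.Agent.V7H48.IP
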