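import Pool.Agent.V7H48.IP.InducedDefs
import Pool.Agent.V7H48.IP.Asym

/-!
# Induced patterns of Legendre symbols for arbitrary small sets of integers, almost all primes
-/

set_option autoImplicit false

namespace Pool.Agent.V7H48.IP

open Finset Pool.Agent.N793.PG Pool.Agent.V7H48.SP
open Pool.Agent.Results.MP_f6e9a2_nt.AlmostAllPrimes (Bad)

/-- from complex signs to integers -/
noncomputable def dec (z : ℂ) : ℤ := if z = 1 then 1 else if z = -1 then -1 else 0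

theorem dec_cast (s : ℤ) (h : s = 0 ∨ s = 1 ∨ s = -1) : dec (s : ℂ) = s := by
  have h2 : (-1 : ℂ) ≠ 1 := by norm_num
  rcases h with rfl | rfl | rfl
  · simp [dec]
  · simp [dec]
  · rw [dec]
    push_cast
    rw [if_neg h2, if_pos rfl]

theorem pattern_dec (p : ℕ) {k : ℕ} (a : Fin k → ℤ) :
    pattern p a = fun i j => dec (SG.pat (SG.jk p) a i j) := by
  funext i j
  unfold pattern SG.pat SG.jk
  split_ifs with h
  · rw [dec_cast _ (by
      rcases jacobiSym.trichotomy (a i - a j) p with h | h | h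
      · exact Or.inl h
      · exact Or.inr (Or.inl h)
      · exact Or.inr (Or.inr h))]
  · simp [dec]

theorem mem_roots_two (z : ℂ) : z ∈ Polynomial.nthRootsFinset 2 (1 : ℂ) ↔ z = 1 ∨ z = -1 := by
  rw [Polynomial.mem_nthRootsFinset (by norm_num)]
  exact sq_eq_one_iff

theorem sum_signs {k : ℕ} (Φ : (Fin k → Fin k → ℤ) → ℝ) :
    ∑ σ ∈ SG.UP 2 k, Φ (fun i j => dec (σ i j)) = ∑ σ ∈ signs k, Φ σ := by
  have h2 : (-1 : ℂ) ≠ 1 := by norm_num
  refine sum_nbij' (fun σ i j => dec (σ i j)) (fun σ i j => (σ i j : ℂ)) ?_ ?_ ?_ ?_ ?_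
  · intro σ hσ
    simp only [SG.UP, signs, Fintype.mem_piFinset] at hσ ⊢
    intro i j
    have := hσ i j
    split_ifs at this ⊢ with h
    · rcases (mem_roots_two _).1 this with h1 | h1 <;> rw [h1] <;> simp [dec, h2]
    · rw [mem_singleton.1 this]; simp [dec]
  · intro σ hσ
    simp only [SG.UP, signs, Fintype.mem_piFinset] at hσ ⊢
    intro i j
    have := hσ i j
    split_ifs at this ⊢ with h
    · rw [mem_roots_two]
      simp only [mem_insert, mem_singleton] at this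
      rcases this with h1 | h1 <;> rw [h1] <;> simp
    · rw [mem_singleton.1 this]; simp
  · intro σ hσ
    simp only [SG.UP, Fintype.mem_piFinset] at hσ
    funext i j
    have := hσ i j
    change ((dec (σ i j) : ℤ) : ℂ) = σ i j
    split_ifs at this with h
    · rcases (mem_roots_two _).1 this with h1 | h1 <;> rw [h1] <;> simp [dec, h2]
    · rw [mem_singleton.1 this]; simp [dec]
  · intro σ hσ
    simp only [signs, Fintype.mem_piFinset] at hσ
    funext i j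
    refine dec_cast _ ?_
    have := hσ i j
    split_ifs at this with h
    · simp only [mem_insert, mem_singleton] at this
      exact Or.inr this
    · exact Or.inr (Or.inl (mem_singleton.1 this))
  · intro σ _
    rfl

theorem random_of_stat {p : ℕ} {A : Finset ℤ} {k : ℕ} {τ : ℝ} (h : SG.Stat (SG.jk p) A 2 k τ) :
    RandomPattern p A k τ := by
  intro Φ hΦ
  have h1 := h (fun σ => Φ (fun i j => dec (σ i j))) fun σ => hΦ _
  rw [sum_signs] at h1
  simp only [← pattern_dec] at h1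
  simpa using h1

theorem universal_of {p : ℕ} {A : Finset ℤ} {k : ℕ} (h : SG.AllPatterns (SG.jk p) A 2 k) :
    Universal p A k := by
  intro σ hσ
  simp only [signs, Fintype.mem_piFinset] at hσ
  obtain ⟨a, h1, h2, h3⟩ := h (fun i j => (σ i j : ℂ)) (fun i j hij => by
    have := hσ i j
    rw [if_pos hij] at this
    simp only [mem_insert, mem_singleton] at this
    exact sq_one_cast _ this)
  refine ⟨a, h1, h2, ?_⟩
  funext i j
  unfold pattern
  split_ifs with hij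
  · have := h3 i j hij
    simp only [SG.jk] at this
    exact_mod_cast this
  · have := hσ i j
    rw [if_neg hij] at this
    exact (mem_singleton.1 this).symm

theorem copies_of {p : ℕ} {A : Finset ℤ} (hA : A.Nonempty) {k : ℕ} {q : ℝ} (hq : 1 ≤ q)
    (h : RandomPattern p A k (1 / q)) (hk : (2 : ℝ) ^ (k * (k - 1)) ≤ q) (σ : Fin k → Fin k → ℤ)
    (hσ : σ ∈ signs k) :
    |(copies p A σ : ℝ) - (A.card : ℝ) ^ k / 2 ^ (k.choose 2)| ≤
      (A.card : ℝ) ^ k / 2 ^ (k.choose 2) / Real.sqrt q := by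
  classical
  have hA0 : (0 : ℝ) < A.card := by exact_mod_cast hA.card_pos
  have hAk : (0 : ℝ) < (A.card : ℝ) ^ k := by positivity
  have h1 := h (fun ρ => if ρ = σ then 1 else 0) fun ρ => by split_ifs <;> norm_num
  have e1 : ∑ ρ ∈ signs k, (if ρ = σ then (1 : ℝ) else 0) = 1 := by
    rw [sum_ite_eq' (signs k) σ, if_pos hσ]
  have e2 : ∑ a ∈ Fintype.piFinset fun _ : Fin k => A,
      (if pattern p a = σ then (1 : ℝ) else 0) = copies p A σ := by
    rw [copies]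
    have : {a : Fin k → ℤ | (∀ i, a i ∈ A) ∧ pattern p a = σ} =
        (((Fintype.piFinset fun _ : Fin k => A).filter fun a => pattern p a = σ :
          Finset (Fin k → ℤ)) : Set (Fin k → ℤ)) := by
      ext a
      simp
    rw [this, Set.ncard_coe_finset, card_filter]
    push_cast
    rfl
  rw [e1, e2] at h1
  have e3 : (copies p A σ : ℝ) / (A.card : ℝ) ^ k - 1 / 2 ^ (k.choose 2) =
      ((copies p A σ : ℝ) - (A.card : ℝ) ^ k / 2 ^ (k.choose 2)) / (A.card : ℝ) ^ k := by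
    field_simp
  rw [e3, abs_div, abs_of_pos hAk, div_le_iff₀ hAk] at h1
  refine h1.trans ?_
  have hsq : 0 < Real.sqrt q := Real.sqrt_pos.2 (by linarith)
  have h2 : (2 : ℝ) ^ (k.choose 2) ≤ Real.sqrt q := by
    refine Real.le_sqrt_of_sq_le ?_
    rw [← pow_mul]
    have : k.choose 2 * 2 = k * (k - 1) := by
      rw [Nat.choose_two_right, Nat.div_mul_cancel (Nat.even_mul_pred_self k).two_dvd]
    rw [this]
    exact hk
  rw [div_div, div_mul_eq_mul_div, one_mul, div_le_div_iff_of_pos_left hAk (by linarith)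
    (by positivity)]
  calc (2 : ℝ) ^ (k.choose 2) * Real.sqrt q ≤ Real.sqrt q * Real.sqrt q := by gcongr
    _ = q := Real.mul_self_sqrt (by linarith)

/-- **The finite step.** -/
theorem goodInduced_of {p : ℕ} (hp : p.Prime) (A : Finset ℤ) (hneA : A.Nonempty)
    (κ q m : ℝ) (hκ : 0 < κ) (hq : 3 ≤ q) (hmA : m ≤ A.card)
    (H : ∀ f g : ℤ → ℂ, ‖∑ a ∈ A, ∑ b ∈ A.image (fun x => -x), f a * g b *
      (jacobiSym (a + b) p : ℂ)‖ ≤ κ * Real.sqrt ((A.card : ℝ) * (A.image (fun x => -x)).card) *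
        (Real.sqrt (∑ a ∈ A, ‖f a‖ ^ 2) *
          Real.sqrt (∑ b ∈ A.image (fun x => -x), ‖g b‖ ^ 2)))
    (Z : (SG.coin A p : ℝ) ≤ κ * (A.card : ℝ) ^ 2)
    (c1 : 1 ≤ κ * q * m) (c2 : 257 * κ * q ^ 9 ≤ 1) : GoodInduced p A q := by
  classical
  intro A' hA' hcA k hk
  have hq0 : 0 < q := by linarith
  have hA0 : (0 : ℝ) < A.card := by exact_mod_cast hneA.card_pos
  have hA'0 : (0 : ℝ) < A'.card := lt_of_lt_of_le (by positivity) hcA
  have hneA' : A'.Nonempty := card_pos.1 (by exact_mod_cast hA'0)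
  have hcA2 : (A.card : ℝ) ≤ q * A'.card := by rwa [div_le_iff₀ hq0, mul_comm] at hcA
  have hpw : ∀ n : ℕ, (1 : ℝ) ≤ q ^ n := fun n => one_le_pow₀ (by linarith)
  have hκ1 : κ ≤ 1 := by
    have := hpw 9
    nlinarith
  have hinj : Function.Injective fun x : ℤ => -x := neg_injective
  have Hm : ∀ j ∈ Ico 1 2, ∀ v : ℤ → ℂ, (∀ a, ‖v a‖ ≤ 1) →
      ∑ x ∈ A', ‖∑ a ∈ A', v a * SG.jk p a x ^ j‖ ^ 2 ≤
        (2 * κ * q ^ 2) * (A'.card : ℝ) ^ 2 * A'.card := by
    intro j hj v hv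
    have hj1 : j = 1 := by have := mem_Ico.1 hj; omega
    subst hj1
    simp only [pow_one]
    have h1 := weights_op A' A' (SG.jk p) (κ * q) (by positivity) (fun f g => by
      have h2 := H (fun a => if a ∈ A' then f a else 0) (fun b => if -b ∈ A' then g (-b) else 0)
      simp only [sum_image fun x _ y _ h => hinj h, neg_neg, ← sub_eq_add_neg] at h2
      rw [card_image_of_injective _ hinj] at h2
      have e1 : ∑ a ∈ A, ∑ b ∈ A, (if a ∈ A' then f a else 0) * (if b ∈ A' then g b else 0) *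
          (jacobiSym (a - b) p : ℂ) = ∑ a ∈ A', ∑ b ∈ A', f a * g b * SG.jk p a b := by
        rw [← sum_subset hA' (f := fun a => ∑ b ∈ A, (if a ∈ A' then f a else 0) *
          (if b ∈ A' then g b else 0) * (jacobiSym (a - b) p : ℂ)) (by
            intro a _ ha
            simp [ha])]
        refine sum_congr rfl fun a ha => ?_
        rw [← sum_subset hA' (f := fun b => (if a ∈ A' then f a else 0) *
          (if b ∈ A' then g b else 0) * (jacobiSym (a - b) p : ℂ)) (by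
            intro b _ hb
            simp [hb])]
        refine sum_congr rfl fun b hb => ?_
        rw [if_pos ha, if_pos hb]
        rfl
      have e2 : ∀ h : ℤ → ℂ, ∑ a ∈ A, ‖(if a ∈ A' then h a else 0 : ℂ)‖ ^ 2 =
          ∑ a ∈ A', ‖h a‖ ^ 2 := by
        intro h
        rw [← sum_subset hA' (f := fun a => ‖(if a ∈ A' then h a else 0 : ℂ)‖ ^ 2) (by
            intro a _ ha
            simp [ha])]
        exact sum_congr rfl fun a ha => by rw [if_pos ha]
      rw [e1, e2, e2] at h2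
      refine h2.trans ?_
      rw [Real.sqrt_mul_self hA0.le, Real.sqrt_mul_self hA'0.le]
      calc κ * (A.card : ℝ) *
          (Real.sqrt (∑ a ∈ A', ‖f a‖ ^ 2) * Real.sqrt (∑ b ∈ A', ‖g b‖ ^ 2)) ≤
          κ * (q * A'.card) *
            (Real.sqrt (∑ a ∈ A', ‖f a‖ ^ 2) * Real.sqrt (∑ b ∈ A', ‖g b‖ ^ 2)) := by gcongr
        _ = _ := by ring) v hv
    refine h1.trans ?_
    have h2 : (κ * q) ^ 2 ≤ 2 * κ * q ^ 2 := by
      have : κ ^ 2 ≤ κ := by nlinarith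
      calc (κ * q) ^ 2 = κ ^ 2 * q ^ 2 := by ring
        _ ≤ κ * q ^ 2 := by gcongr
        _ ≤ 2 * κ * q ^ 2 := by nlinarith [mul_pos hκ (pow_pos hq0 2)]
    gcongr
  have Zm : ∑ x ∈ A', (zr (SG.jk p) A' x : ℝ) ≤ (2 * κ * q ^ 2) * A'.card * A'.card := by
    refine (SG.jk_zeros hp A A' hA').trans ?_
    have h1 : (SG.coin A p : ℝ) ≤ κ * q ^ 2 * A'.card * A'.card := by
      refine Z.trans ?_
      calc κ * (A.card : ℝ) ^ 2 ≤ κ * (q * A'.card) ^ 2 := by gcongr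
        _ = _ := by ring
    have h2 : (A'.card : ℝ) ≤ κ * q ^ 2 * A'.card * A'.card := by
      have h3 : (1 : ℝ) ≤ κ * q ^ 2 * A'.card := by
        have h4 : m ≤ q * A'.card := hmA.trans hcA2
        calc (1 : ℝ) ≤ κ * q * m := c1
          _ ≤ κ * q * (q * A'.card) := by gcongr
          _ = _ := by ring
      calc (A'.card : ℝ) = 1 * A'.card := (one_mul _).symm
        _ ≤ _ := by gcongr
    calc (A'.card : ℝ) + SG.coin A p ≤ κ * q ^ 2 * A'.card * A'.card +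
        κ * q ^ 2 * A'.card * A'.card := add_le_add h2 h1
      _ = _ := by ring
  have hkq : (k : ℝ) ≤ q := by
    have h6 : k ≤ 2 ^ k := Nat.lt_two_pow_self.le
    have h7 : (k : ℝ) ≤ (2 : ℝ) ^ k := by exact_mod_cast h6
    exact h7.trans hk
  have hbig : ∀ n : ℕ, n ≤ 9 → 257 * κ * q ^ n ≤ 1 := fun n hn => by
    refine le_trans ?_ c2
    have : q ^ n ≤ q ^ 9 := pow_le_pow_right₀ (by linarith) hn
    gcongr
  have hκ'1 : 2 * κ * q ^ 2 ≤ 1 := by
    have := hbig 2 (by norm_num)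
    have h0 : 0 < κ * q ^ 2 := by positivity
    nlinarith
  have hstat : SG.Stat (SG.jk p) A' 2 k (1 / q) := by
    intro Φ hΦ
    refine (SG.stat (SG.jk p) A' le_rfl (SG.jk_root p) hneA' (2 * κ * q ^ 2) (by positivity) hκ'1
      Hm Zm k Φ hΦ).trans ?_
    have hsq : Real.sqrt (((2 : ℕ) : ℝ) ^ k * (2 * κ * q ^ 2)) ≤ 1 / (4 * q ^ 2) := by
      rw [Real.sqrt_le_left (by positivity)]
      have h2k : ((2 : ℕ) : ℝ) ^ k ≤ q := by exact_mod_cast hk
      have := hbig 7 (by norm_num)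
      have h0 : 0 < κ * q ^ 7 := by positivity
      calc ((2 : ℕ) : ℝ) ^ k * (2 * κ * q ^ 2) ≤ q * (2 * κ * q ^ 2) := by gcongr
        _ = (32 * κ * q ^ 7) / (16 * q ^ 4) := by
            field_simp
            ring
        _ ≤ 1 / (16 * q ^ 4) := by
            gcongr
            nlinarith
        _ = (1 / (4 * q ^ 2)) ^ 2 := by
            rw [div_pow, mul_pow, one_pow]
            congr 1
            ring
    calc 4 * k * Real.sqrt (((2 : ℕ) : ℝ) ^ k * (2 * κ * q ^ 2)) ≤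
        4 * q * (1 / (4 * q ^ 2)) := by gcongr
      _ = 1 / q := by
          field_simp
  have hrand := random_of_stat hstat
  refine ⟨hrand, universal_of ?_, fun hk2 σ hσ => copies_of hneA' (by linarith) hrand hk2 σ hσ⟩
  refine SG.allPatterns (SG.jk p) A' le_rfl (SG.jk_root p) (SG.jk_diag hp) hneA' (2 * κ * q ^ 2)
    (by positivity) Hm Zm k ?_
  have h43 : (2 * ((2 : ℕ) : ℝ)) ^ (3 * k) = ((2 : ℝ) ^ k) ^ 6 := by
    rw [← pow_mul, show (2 * ((2 : ℕ) : ℝ)) = (2 : ℝ) ^ 2 by norm_num, ← pow_mul]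
    congr 1; ring
  rw [h43]
  have h9 := hbig 9 le_rfl
  have h0 : 0 < κ * q ^ 9 := by positivity
  calc 16 * (k : ℝ) * ((2 : ℕ) : ℝ) ^ 3 * ((2 : ℝ) ^ k) ^ 6 * (2 * κ * q ^ 2) ≤
      16 * q * ((2 : ℕ) : ℝ) ^ 3 * q ^ 6 * (2 * κ * q ^ 2) := by gcongr
    _ = 256 * (κ * q ^ 9) := by push_cast; ring
    _ < 257 * (κ * q ^ 9) := by linarith
    _ = 257 * κ * q ^ 9 := by ring
    _ ≤ 1 := h9

/-- **Arbitrary small sets of integers, almost all primes.** -/
theorem small_sets_induced (K : ℕ) : ∃ δ : ℝ, 0 < δ ∧ ∃ Q₀ : ℕ, ∀ (Q : ℕ) (A : Finset ℤ) (m : ℝ),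
    Q₀ ≤ Q → (∀ a ∈ A, |a| ≤ (Q : ℤ) ^ K) → Real.log Q ^ 8 ≤ m → m ≤ A.card →
      ∃ E : Finset ℕ, (E.card : ℝ) ≤ Q / m ^ δ ∧
        ∀ p : ℕ, p.Prime → p ≠ 2 → p ≤ Q → p ∉ E → GoodInduced p A (m ^ δ) := by
  classical
  obtain ⟨C₁, hC₁, c₁, hc₁, hbad⟩ := Pool.Agent.Results.MP_f6e9a2_nt.AlmostAllPrimes.result.1 K
  obtain ⟨C₂, hC₂, hcoin⟩ := SG.few_coin K
  set γ : ℝ := min (c₁ / 32) (1 / (16 * (K + 1))) with hγ
  have hK0 : (0 : ℝ) ≤ K := Nat.cast_nonneg _
  have hγ0 : 0 < γ := lt_min (by positivity) (by positivity)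
  have hγc : 8 * γ ≤ c₁ / 4 := by
    have := min_le_left (c₁ / 32) (1 / (16 * ((K : ℝ) + 1)))
    rw [← hγ] at this
    linarith
  have hγK : γ * (K + 1) ≤ 1 / 16 := by
    have := min_le_right (c₁ / 32) (1 / (16 * ((K : ℝ) + 1)))
    rw [← hγ] at this
    calc γ * (K + 1) ≤ 1 / (16 * ((K : ℝ) + 1)) * (K + 1) := by gcongr
      _ = 1 / 16 := by field_simp
  have hγ1 : γ ≤ 1 / 16 := by nlinarith
  set δ : ℝ := γ / 16 with hδ
  have hδ0 : 0 < δ := by positivity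
  obtain ⟨M₁, hM₁⟩ := large_pow (2 * C₁) (8 * γ - δ) (by rw [hδ]; linarith)
  obtain ⟨M₂, hM₂⟩ := large_pow 257 (γ - 9 * δ) (by rw [hδ]; linarith)
  obtain ⟨M₄, hM₄⟩ := large_pow 3 δ hδ0
  obtain ⟨M₅, hM₅⟩ := large_pow (2 * C₂) (5 / 8) (by norm_num)
  set M : ℝ := max 1 (max M₁ (max M₂ M₄)) with hM
  refine ⟨δ, hδ0, max 3 (max ⌈Real.exp M⌉₊ ⌈M₅⌉₊), fun Q A m hQ hA hLm hmA => ?_⟩
  have hQ3 : 3 ≤ Q := (le_max_left _ _).trans hQ
  have hQ3r : (3 : ℝ) ≤ Q := by exact_mod_cast hQ3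
  have hQ0 : (0 : ℝ) < Q := by linarith
  have hQe : Real.exp M ≤ Q := (Nat.le_ceil _).trans
    (by exact_mod_cast ((le_max_left _ _).trans (le_max_right _ _)).trans hQ)
  have hQ5 : M₅ ≤ Q := (Nat.le_ceil _).trans
    (by exact_mod_cast ((le_max_right _ _).trans (le_max_right _ _)).trans hQ)
  set L : ℝ := Real.log Q with hL
  have hML : M ≤ L := by rw [hL, Real.le_log_iff_exp_le hQ0]; exact hQe
  have hM1 : 1 ≤ M := le_max_left _ _
  have hL1 : 1 ≤ L := hM1.trans hML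
  have hLm' : L ≤ m := by
    refine le_trans ?_ hLm
    calc L = L ^ 1 := (pow_one L).symm
      _ ≤ L ^ 8 := pow_le_pow_right₀ hL1 (by norm_num)
  have hMm : M ≤ m := hML.trans hLm'
  have hm1 : 1 ≤ m := hM1.trans hMm
  have hm0 : 0 < m := by linarith
  have g1 : 2 * C₁ ≤ m ^ (8 * γ - δ) := hM₁ m (by
    refine le_trans ?_ hMm; exact (le_max_left _ _).trans (le_max_right _ _))
  have g2 : 257 ≤ m ^ (γ - 9 * δ) := hM₂ m (by
    refine le_trans ?_ hMm
    exact ((le_max_left _ _).trans (le_max_right _ _)).trans (le_max_right _ _))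
  have g4 : 3 ≤ m ^ δ := hM₄ m (by
    refine le_trans ?_ hMm
    exact ((le_max_right _ _).trans (le_max_right _ _)).trans (le_max_right _ _))
  have g5 : 2 * C₂ ≤ (Q : ℝ) ^ ((5 : ℝ) / 8) := hM₅ Q hQ5
  have hneA : A.Nonempty := card_pos.1 (by exact_mod_cast hm0.trans_le hmA)
  have hinj : Function.Injective fun x : ℤ => -x := neg_injective
  have hcneg : (A.image fun x => -x).card = A.card := card_image_of_injective _ hinj
  have hneg : ∀ b ∈ A.image fun x => -x, |b| ≤ (Q : ℤ) ^ K := by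
    intro b hb
    obtain ⟨a, ha, rfl⟩ := mem_image.1 hb
    rw [abs_neg]
    exact hA a ha
  have mp : ∀ x y : ℝ, m ^ x * m ^ y = m ^ (x + y) := fun x y => (Real.rpow_add hm0 x y).symm
  set κ : ℝ := m ^ (-γ) with hκ
  have hκ0 : 0 < κ := Real.rpow_pos_of_pos hm0 _
  have hκ1 : κ ≤ 1 := Real.rpow_le_one_of_one_le_of_nonpos hm1 (by linarith)
  have hmQ : m ≤ (Q : ℝ) ^ ((K : ℝ) + 1) := by
    have h1 : A ⊆ Icc (-(Q : ℤ) ^ K) ((Q : ℤ) ^ K) := by
      intro a ha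
      rw [mem_Icc]
      exact abs_le.1 (hA a ha)
    have h2 := card_le_card h1
    rw [Int.card_Icc] at h2
    have h3 : (((Q : ℤ) ^ K + 1 - -(Q : ℤ) ^ K).toNat : ℝ) = 2 * (Q : ℝ) ^ K + 1 := by
      have h4 : ((((Q : ℤ) ^ K + 1 - -(Q : ℤ) ^ K).toNat : ℤ) : ℝ) = 2 * (Q : ℝ) ^ K + 1 := by
        have h5 : (0 : ℤ) ≤ (Q : ℤ) ^ K := by positivity
        rw [Int.toNat_of_nonneg (by linarith)]
        push_cast
        ring
      exact_mod_cast h4
    have h4 : (A.card : ℝ) ≤ 2 * (Q : ℝ) ^ K + 1 := by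
      rw [← h3]
      exact_mod_cast h2
    have h5 : (1 : ℝ) ≤ (Q : ℝ) ^ K := one_le_pow₀ (by linarith)
    have h6 : (Q : ℝ) ^ ((K : ℝ) + 1) = (Q : ℝ) ^ K * Q := by
      rw [Real.rpow_add hQ0, Real.rpow_natCast, Real.rpow_one]
    rw [h6]
    calc m ≤ A.card := hmA
      _ ≤ 2 * (Q : ℝ) ^ K + 1 := h4
      _ ≤ (Q : ℝ) ^ K * 3 := by linarith
      _ ≤ _ := by gcongr
  have hfin : (Bad Q κ A (A.image fun x => -x)).Finite :=
    (finite_toSet (range (Q + 1))).subset fun p hp => by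
      rw [mem_coe, mem_range]
      exact Nat.lt_succ_of_le hp.2.2.1
  set E₁ : Finset ℕ := hfin.toFinset with hE₁
  have hE₁c : (E₁.card : ℝ) ≤ Q / m ^ δ / 2 := by
    have h1 := hbad Q A (A.image fun x => -x) κ hQ3 hA hneg hneA (hneA.image _) hκ0 hκ1
    rw [Set.ncard_eq_toFinset_card _ hfin] at h1
    rw [hcneg, min_self] at h1
    have h3 : L ^ 4 / (A.card : ℝ) ≤ m ^ (-(1 / 2 : ℝ)) := by
      have h4 : L ^ 4 ≤ m ^ (1 / 2 : ℝ) := by
        have h5 : (L ^ 8) ^ (1 / 2 : ℝ) = L ^ 4 := by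
          rw [← Real.rpow_natCast L 8, ← Real.rpow_mul (by linarith), ← Real.rpow_natCast L 4]
          norm_num
        rw [← h5]
        exact Real.rpow_le_rpow (by positivity) hLm (by norm_num)
      calc L ^ 4 / (A.card : ℝ) ≤ m ^ (1 / 2 : ℝ) / m := by gcongr
        _ = m ^ (-(1 / 2 : ℝ)) := by
            rw [div_eq_iff hm0.ne']
            nth_rw 3 [← Real.rpow_one m]
            rw [mp]
            norm_num
    have h4 : (L ^ 4 / (A.card : ℝ)) ^ c₁ ≤ m ^ (-(c₁ / 2)) := by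
      calc _ ≤ (m ^ (-(1 / 2 : ℝ))) ^ c₁ := Real.rpow_le_rpow (by positivity) h3 hc₁.le
        _ = _ := by rw [← Real.rpow_mul hm0.le]; congr 1; ring
    have h5 : C₁ / κ ^ 8 = C₁ * m ^ (8 * γ) := by
      rw [hκ, ← Real.rpow_natCast, ← Real.rpow_mul hm0.le, div_eq_mul_inv, ← Real.rpow_neg hm0.le]
      congr 2
      push_cast
      ring
    have h6 : (E₁.card : ℝ) ≤ C₁ * m ^ (8 * γ) * Q * m ^ (-(c₁ / 2)) := by
      refine h1.trans ?_
      rw [h5]
      gcongr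
    refine h6.trans ?_
    rw [le_div_iff₀ (by norm_num), le_div_iff₀ (by positivity)]
    calc C₁ * m ^ (8 * γ) * Q * m ^ (-(c₁ / 2)) * 2 * m ^ δ =
        (2 * C₁) * (m ^ (8 * γ) * m ^ (-(c₁ / 2)) * m ^ δ) * Q := by ring
      _ ≤ m ^ (8 * γ - δ) * (m ^ (8 * γ) * m ^ (-(c₁ / 2)) * m ^ δ) * Q := by gcongr
      _ = m ^ (16 * γ - c₁ / 2) * Q := by
          rw [mp, mp, mp]
          congr 2
          ring
      _ ≤ 1 * Q := by
          refine mul_le_mul_of_nonneg_right ?_ hQ0.le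
          exact Real.rpow_le_one_of_one_le_of_nonpos hm1 (by linarith)
      _ = Q := one_mul _
  set E₂ : Finset ℕ := (range (Q + 1)).filter fun p => p.Prime ∧
    κ * (A.card : ℝ) ^ 2 < SG.coin A p with hE₂
  have hE₂c : (E₂.card : ℝ) ≤ Q / m ^ δ / 2 := by
    have h1 : (E₂.card : ℝ) ≤ C₂ / κ * (Q : ℝ) ^ ((1 : ℝ) / 4) :=
      hcoin Q A (by omega) hA κ E₂ hκ0 fun p hp => by
        rw [hE₂, mem_filter] at hp
        exact hp.2
    refine h1.trans ?_
    rw [le_div_iff₀ (by norm_num), le_div_iff₀ (by positivity)]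
    have h2 : C₂ / κ = C₂ * m ^ γ := by
      rw [hκ, div_eq_mul_inv, ← Real.rpow_neg hm0.le, neg_neg]
    rw [h2]
    have h3 : m ^ γ * m ^ δ ≤ (Q : ℝ) ^ ((1 : ℝ) / 8) := by
      rw [mp]
      calc m ^ (γ + δ) ≤ m ^ (2 * γ) := Real.rpow_le_rpow_of_exponent_le hm1 (by rw [hδ]; linarith)
        _ ≤ ((Q : ℝ) ^ ((K : ℝ) + 1)) ^ (2 * γ) := Real.rpow_le_rpow hm0.le hmQ (by linarith)
        _ = (Q : ℝ) ^ (((K : ℝ) + 1) * (2 * γ)) := by rw [← Real.rpow_mul hQ0.le]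
        _ ≤ _ := Real.rpow_le_rpow_of_exponent_le (by linarith) (by linarith)
    calc C₂ * m ^ γ * (Q : ℝ) ^ ((1 : ℝ) / 4) * 2 * m ^ δ =
        (2 * C₂) * (m ^ γ * m ^ δ) * (Q : ℝ) ^ ((1 : ℝ) / 4) := by ring
      _ ≤ (Q : ℝ) ^ ((5 : ℝ) / 8) * (Q : ℝ) ^ ((1 : ℝ) / 8) * (Q : ℝ) ^ ((1 : ℝ) / 4) := by
          gcongr
      _ = Q := by
          rw [← Real.rpow_add hQ0, ← Real.rpow_add hQ0]
          norm_num
  refine ⟨E₁ ∪ E₂, ?_, ?_⟩
  · have h1 : ((E₁ ∪ E₂).card : ℝ) ≤ E₁.card + E₂.card := by exact_mod_cast card_union_le _ _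
    linarith
  intro p hp hp2 hpQ hpE
  rw [mem_union, not_or] at hpE
  refine goodInduced_of hp A hneA κ (m ^ δ) m hκ0 g4 hmA ?_ ?_ ?_ ?_
  · intro f g
    by_contra hlt
    exact hpE.1 (by
      rw [hE₁, Set.Finite.mem_toFinset]
      exact ⟨hp, hp2, hpQ, f, g, not_le.1 hlt⟩)
  · by_contra hlt
    exact hpE.2 (by
      rw [hE₂, mem_filter, mem_range]
      exact ⟨by omega, hp, not_le.1 hlt⟩)
  · calc (1 : ℝ) ≤ m ^ (-γ + δ + 1) := Real.one_le_rpow hm1 (by linarith)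
      _ = _ := by rw [hκ, Real.rpow_add hm0, Real.rpow_add hm0, Real.rpow_one]
  · calc 257 * κ * (m ^ δ) ^ 9 ≤ m ^ (γ - 9 * δ) * κ * (m ^ δ) ^ 9 := by gcongr
      _ = 1 := by
          rw [hκ, ← Real.rpow_natCast (m ^ δ), ← Real.rpow_mul hm0.le, mp, mp]
          have : γ - 9 * δ + -γ + δ * ((9 : ℕ) : ℝ) = 0 := by push_cast; ring
          rw [this, Real.rpow_zero]

end Pool.Agent.V7H48.IP
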