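import Mathlib

/-!
# Induced patterns of Legendre symbols of differences of integers: definitions
-/

set_option autoImplicit false

namespace Pool.Agent.V7H48.IP

/-- the pattern of the tuple `a`: the Legendre symbols `(a i - a j | p)` for `i < j` (and `1` in the
other places) -/
def pattern (p : ℕ) {k : ℕ} (a : Fin k → ℤ) : Fin k → Fin k → ℤ :=
  fun i j => if i < j then jacobiSym (a i - a j) p else 1

/-- all patterns on `k` points: a sign for every pair `i < j` (and `1` in the other places) -/
noncomputable def signs (k : ℕ) : Finset (Fin k → Fin k → ℤ) :=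
  Fintype.piFinset fun i => Fintype.piFinset fun j => if i < j then {1, -1} else {1}

/-- The pattern of `k` random elements of `A` is, up to `τ` in total variation, a random pattern:
the mean of each function `Φ` of the pattern, with values in `[0, 1]`, over all tuples in `A ^ k`
differs from its mean over all the `2 ^ (k (k - 1) / 2)` patterns by at most `τ`. -/
def RandomPattern (p : ℕ) (A : Finset ℤ) (k : ℕ) (τ : ℝ) : Prop :=
  ∀ Φ : (Fin k → Fin k → ℤ) → ℝ, (∀ σ, 0 ≤ Φ σ ∧ Φ σ ≤ 1) →
    |(∑ a ∈ Fintype.piFinset fun _ : Fin k => A, Φ (pattern p a)) / (A.card : ℝ) ^ k -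
      (∑ σ ∈ signs k, Φ σ) / 2 ^ (k.choose 2)| ≤ τ

/-- Every pattern on `k` points is the pattern of `k` different elements of `A`. -/
def Universal (p : ℕ) (A : Finset ℤ) (k : ℕ) : Prop :=
  ∀ σ ∈ signs k, ∃ a : Fin k → ℤ, Function.Injective a ∧ (∀ i, a i ∈ A) ∧ pattern p a = σ

/-- the number of the tuples in `A ^ k` with the pattern `σ` -/
noncomputable def copies (p : ℕ) (A : Finset ℤ) {k : ℕ} (σ : Fin k → Fin k → ℤ) : ℕ :=
  Set.ncard {a : Fin k → ℤ | (∀ i, a i ∈ A) ∧ pattern p a = σ}

/-- The prime `p` is good for `A` with the quality `q ≥ 1`: for all subsets `A'` of `A` with at least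
`|A| / q` elements and all `k` with `2 ^ k ≤ q` the pattern of `k` random elements of `A'` is random
up to `1 / q` in total variation, every pattern on `k` points is the pattern of `k` different elements
of `A'`, and if `2 ^ (k (k - 1)) ≤ q` then every pattern is the pattern of the expected number of
tuples in `A' ^ k`, up to a relative error `q ^ (-1 / 2)`. -/
def GoodInduced (p : ℕ) (A : Finset ℤ) (q : ℝ) : Prop :=
  ∀ A' ⊆ A, (A.card : ℝ) / q ≤ A'.card → ∀ k : ℕ, (2 : ℝ) ^ k ≤ q →
    RandomPattern p A' k (1 / q) ∧ Universal p A' k ∧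
      ((2 : ℝ) ^ (k * (k - 1)) ≤ q → ∀ σ ∈ signs k,
        |(copies p A' σ : ℝ) - (A'.card : ℝ) ^ k / 2 ^ (k.choose 2)| ≤
          (A'.card : ℝ) ^ k / 2 ^ (k.choose 2) / Real.sqrt q)

end Pool.Agent.V7H48.IP
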