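import Pool.Agent.V7H48.IP.Defs
import Pool.Agent.V7H48.SG.Primes

/-!
# Sign patterns of Legendre symbols along tuples of integers, almost all primes
-/

set_option autoImplicit false

namespace Pool.Agent.V7H48.IP

open Finset Pool.Agent.N793.PG Pool.Agent.V7H48.SP

/-- the kernel -/
noncomputable def ck (p : ℕ) : ℤ → ℤ → ℂ := fun a b => (jacobiSym (a + b) p : ℂ)

theorem ck_root (p : ℕ) (a b : ℤ) : ck p a b = 0 ∨ ck p a b ^ 2 = 1 := by
  unfold ck
  rcases jacobiSym.trichotomy (a + b) p with h | h | h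
  · left; rw [h]; simp
  · right; rw [h]; simp
  · right; rw [h]; simp

theorem sq_one_cast (s : ℤ) (h : s = 1 ∨ s = -1) : ((s : ℂ)) ^ 2 = 1 := by
  rcases h with rfl | rfl <;> simp

theorem balanced_of (p : ℕ) (A : Finset ℤ) {k : ℕ} (b : Fin k → ℤ) (τ : ℝ)
    (h : Reg (ck p) A 2 b τ) : Balanced p A b τ := by
  intro σ hσ
  have h1 := h (fun i => (σ i : ℂ)) fun i => sq_one_cast (σ i) (hσ i)
  have h2 : cnt (ck p) A b (fun i => (σ i : ℂ)) = signCount p A b σ := by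
    rw [cnt, signCount]
    congr 1
    ext a
    simp only [ck, Set.mem_setOf_eq, Int.cast_inj]
  rw [h2] at h1
  simpa using h1

/-- the number of the pairs with a nonzero sum which is divisible by `p` -/
noncomputable def coin (A B : Finset ℤ) (p : ℕ) : ℕ :=
  ((A ×ˢ B).filter fun z => z.1 + z.2 ≠ 0 ∧ (p : ℤ) ∣ z.1 + z.2).card

/-- few primes with many coincidences -/
theorem few_coin (K : ℕ) : ∃ C : ℝ, 0 < C ∧ ∀ (Q : ℕ) (A B : Finset ℤ), 1 ≤ Q →
    (∀ a ∈ A, |a| ≤ (Q : ℤ) ^ K) → (∀ b ∈ B, |b| ≤ (Q : ℤ) ^ K) → A.Nonempty → B.Nonempty →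
      ∀ (z : ℝ) (E : Finset ℕ), 0 < z →
        (∀ p ∈ E, p.Prime ∧ z * (A.card * B.card : ℝ) < coin A B p) →
          (E.card : ℝ) ≤ C / z * (Q : ℝ) ^ ((1 : ℝ) / 4) := by
  refine ⟨2 * (1 + 4 * K), by positivity, fun Q A B hQ hA hB hneA hneB z E hz hE => ?_⟩
  have hQ0 : (0 : ℝ) < Q := by exact_mod_cast hQ
  have hQ1 : (1 : ℝ) ≤ Q := by exact_mod_cast hQ
  set C : ℝ := 2 * (1 + 4 * K) * (Q : ℝ) ^ ((1 : ℝ) / 4) with hC
  have hC0 : 0 < C := by positivity
  have h1 : ∑ p ∈ E, (coin A B p : ℝ) ≤ C * (A.card * B.card : ℝ) := by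
    have h2 : ∀ p, (coin A B p : ℝ) = ∑ w ∈ A ×ˢ B,
        if w.1 + w.2 ≠ 0 ∧ (p : ℤ) ∣ w.1 + w.2 then (1 : ℝ) else 0 := by
      intro p
      rw [coin, card_filter]
      push_cast
      rfl
    simp only [h2]
    rw [sum_comm]
    have h3 : ∀ w ∈ A ×ˢ B, ∑ p ∈ E, (if w.1 + w.2 ≠ 0 ∧ (p : ℤ) ∣ w.1 + w.2 then (1 : ℝ) else 0) ≤
        C := by
      rintro ⟨a, b⟩ hw
      rw [mem_product] at hw
      by_cases hab : a + b = 0
      · simp [hab, hC0.le]
      have h4 : ∑ p ∈ E, (if a + b ≠ 0 ∧ (p : ℤ) ∣ a + b then (1 : ℝ) else 0) =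
          ((E.filter fun p : ℕ => (p : ℤ) ∣ a + b).card : ℝ) := by
        rw [card_filter]
        push_cast
        exact sum_congr rfl fun p _ => by simp [hab]
      simp only
      rw [h4]
      set S := E.filter fun p : ℕ => (p : ℤ) ∣ a + b with hS
      have h5 := SG.prime_divisors (a + b) hab S fun p hp => by
        rw [hS, mem_filter] at hp
        exact ⟨(hE p hp.1).1, hp.2⟩
      have h6 : ((a + b).natAbs : ℝ) ≤ 2 * (Q : ℝ) ^ K := by
        have h7 : |a + b| ≤ 2 * (Q : ℤ) ^ K := by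
          calc |a + b| ≤ |a| + |b| := abs_add_le _ _
            _ ≤ (Q : ℤ) ^ K + (Q : ℤ) ^ K := add_le_add (hA a hw.1) (hB b hw.2)
            _ = _ := by ring
        have h8 : ((a + b).natAbs : ℝ) = ((|a + b| : ℤ) : ℝ) := Nat.cast_natAbs (a + b)
        rw [h8]
        exact_mod_cast h7
      have h7 : (2 : ℝ) ^ S.card ≤ 2 * (Q : ℝ) ^ K := by
        refine le_trans ?_ h6
        exact_mod_cast h5
      have h8 := Real.log_le_log (by positivity) h7
      rw [Real.log_pow, Real.log_mul (by norm_num) (by positivity), Real.log_pow] at h8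
      have h9 : Real.log Q ≤ (Q : ℝ) ^ ((1 : ℝ) / 4) / (1 / 4) :=
        Real.log_le_rpow_div hQ0.le (by norm_num)
      have h10 := Real.log_two_gt_d9
      have h11 := Real.log_two_lt_d9
      have h12 : (1 : ℝ) ≤ (Q : ℝ) ^ ((1 : ℝ) / 4) := Real.one_le_rpow hQ1 (by norm_num)
      have h13 : (S.card : ℝ) * (1 / 2) ≤ S.card * Real.log 2 :=
        mul_le_mul_of_nonneg_left (by linarith) (Nat.cast_nonneg _)
      have h14 : (K : ℝ) * Real.log Q ≤ K * ((Q : ℝ) ^ ((1 : ℝ) / 4) / (1 / 4)) :=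
        mul_le_mul_of_nonneg_left h9 (Nat.cast_nonneg _)
      rw [hC]
      have h15 : 2 * (1 + 4 * (K : ℝ)) * (Q : ℝ) ^ ((1 : ℝ) / 4) =
          2 * ((Q : ℝ) ^ ((1 : ℝ) / 4) + K * ((Q : ℝ) ^ ((1 : ℝ) / 4) / (1 / 4))) := by ring
      rw [h15]
      linarith
    refine (sum_le_sum h3).trans (le_of_eq ?_)
    rw [sum_const, card_product, nsmul_eq_mul]
    push_cast
    ring
  have hA0 : (0 : ℝ) < A.card := by exact_mod_cast hneA.card_pos
  have hB0 : (0 : ℝ) < B.card := by exact_mod_cast hneB.card_pos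
  have h2 : (E.card : ℝ) * (z * (A.card * B.card : ℝ)) ≤ C * (A.card * B.card : ℝ) := by
    refine le_trans ?_ h1
    rw [← nsmul_eq_mul]
    exact card_nsmul_le_sum _ _ _ fun p hp => (hE p hp).2.le
  have h3 : (E.card : ℝ) * z ≤ C := by
    have h4 : ((E.card : ℝ) * z) * (A.card * B.card : ℝ) ≤ C * (A.card * B.card : ℝ) := by
      linarith
    exact le_of_mul_le_mul_right h4 (by positivity)
  calc (E.card : ℝ) ≤ C / z := by rwa [le_div_iff₀ hz]
    _ = _ := by rw [hC]; ring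

/-- zeros of the kernel -/
theorem ck_zeros {p : ℕ} (hp : p.Prime) (A B A' B' : Finset ℤ) (hA : A' ⊆ A) (hB : B' ⊆ B) :
    ∑ x ∈ B', (zr (ck p) A' x : ℝ) ≤ B'.card + coin A B p := by
  classical
  have hzero : ∀ a b : ℤ, ck p a b = 0 → (p : ℤ) ∣ a + b := by
    intro a b h
    have : Fact p.Prime := ⟨hp⟩
    unfold ck at h
    have h1 : jacobiSym (a + b) p = 0 := by exact_mod_cast h
    rw [← jacobiSym.legendreSym.to_jacobiSym p, legendreSym.eq_zero_iff] at h1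
    rwa [← ZMod.intCast_zmod_eq_zero_iff_dvd]
  have h1 : ∀ x ∈ B', (zr (ck p) A' x : ℝ) ≤
      1 + ((A'.filter fun a => a + x ≠ 0 ∧ (p : ℤ) ∣ a + x).card : ℝ) := by
    intro x hx
    have h2 : {a | a ∈ A' ∧ ck p a x = 0} ⊆
        ((insert (-x) (A'.filter fun a => a + x ≠ 0 ∧ (p : ℤ) ∣ a + x) : Finset ℤ) : Set ℤ) := by
      rintro a ⟨ha, h⟩
      rw [coe_insert, Set.mem_insert_iff]
      by_cases hax : a + x = 0
      · exact Or.inl (eq_neg_of_add_eq_zero_left hax)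
      · exact Or.inr (by rw [mem_coe, mem_filter]; exact ⟨ha, hax, hzero a x h⟩)
    have h3 : zr (ck p) A' x ≤
        (insert (-x) (A'.filter fun a => a + x ≠ 0 ∧ (p : ℤ) ∣ a + x)).card := by
      rw [zr, ← Set.ncard_coe_finset]
      exact Set.ncard_le_ncard h2 (finite_toSet _)
    have h4 := h3.trans (card_insert_le _ _)
    have h5 : ((zr (ck p) A' x : ℕ) : ℝ) ≤
        (((A'.filter fun a => a + x ≠ 0 ∧ (p : ℤ) ∣ a + x).card + 1 : ℕ) : ℝ) := by
      exact_mod_cast h4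
    push_cast at h5
    linarith
  refine (sum_le_sum h1).trans ?_
  rw [sum_add_distrib, sum_const, nsmul_eq_mul, mul_one]
  refine add_le_add le_rfl ?_
  have h2 : ∑ x ∈ B', ((A'.filter fun a => a + x ≠ 0 ∧ (p : ℤ) ∣ a + x).card : ℝ) =
      (((A' ×ˢ B').filter fun z => z.1 + z.2 ≠ 0 ∧ (p : ℤ) ∣ z.1 + z.2).card : ℝ) := by
    simp only [card_filter]
    push_cast
    rw [sum_product_right]
  rw [h2, coin]
  exact_mod_cast card_le_card (filter_subset_filter _ (product_subset_product hA hB))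

/-- **The finite step.** -/
theorem good_of {p : ℕ} (hp : p.Prime) (A B : Finset ℤ) (hneA : A.Nonempty) (hneB : B.Nonempty)
    (κ q m : ℝ) (hκ : 0 < κ) (hq : 3 ≤ q) (hmA : m ≤ A.card) (hmB : m ≤ B.card)
    (H : ∀ f g : ℤ → ℂ, ‖∑ a ∈ A, ∑ b ∈ B, f a * g b * (jacobiSym (a + b) p : ℂ)‖ ≤
      κ * Real.sqrt ((A.card : ℝ) * B.card) *
        (Real.sqrt (∑ a ∈ A, ‖f a‖ ^ 2) * Real.sqrt (∑ b ∈ B, ‖g b‖ ^ 2)))
    (Z : (coin A B p : ℝ) ≤ κ * (A.card * B.card))
    (c1 : 1 ≤ κ * q * m) (c2 : 10 * κ * q ^ 7 ≤ 1) (c4 : 3 * q ^ 3 ≤ m) : Good p A B q := by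
  classical
  intro A' hA' B' hB' hcA hcB k hk
  have hq0 : 0 < q := by linarith
  have hA0 : (0 : ℝ) < A.card := by exact_mod_cast hneA.card_pos
  have hB0 : (0 : ℝ) < B.card := by exact_mod_cast hneB.card_pos
  have hA'0 : (0 : ℝ) < A'.card := lt_of_lt_of_le (by positivity) hcA
  have hB'0 : (0 : ℝ) < B'.card := lt_of_lt_of_le (by positivity) hcB
  have hneA' : A'.Nonempty := card_pos.1 (by exact_mod_cast hA'0)
  have hneB' : B'.Nonempty := card_pos.1 (by exact_mod_cast hB'0)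
  have hcA2 : (A.card : ℝ) ≤ q * A'.card := by rwa [div_le_iff₀ hq0, mul_comm] at hcA
  have hcB2 : (B.card : ℝ) ≤ q * B'.card := by rwa [div_le_iff₀ hq0, mul_comm] at hcB
  have hκ1 : κ ≤ 1 := by
    have : (1 : ℝ) ≤ q ^ 7 := one_le_pow₀ (by linarith)
    nlinarith
  -- the second moments
  have Hm : ∀ j ∈ Ico 1 2, ∀ v : ℤ → ℂ, (∀ a, ‖v a‖ ≤ 1) →
      ∑ x ∈ B', ‖∑ a ∈ A', v a * ck p a x ^ j‖ ^ 2 ≤
        (2 * κ * q ^ 2) * (A'.card : ℝ) ^ 2 * B'.card := by
    intro j hj v hv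
    have hj1 : j = 1 := by have := mem_Ico.1 hj; omega
    subst hj1
    simp only [pow_one]
    have h1 := weights_op A' B' (ck p) (κ * q) (by positivity) (fun f g => by
      have h2 := H (fun a => if a ∈ A' then f a else 0) (fun b => if b ∈ B' then g b else 0)
      have e1 : ∑ a ∈ A, ∑ b ∈ B, (if a ∈ A' then f a else 0) * (if b ∈ B' then g b else 0) *
          (jacobiSym (a + b) p : ℂ) = ∑ a ∈ A', ∑ b ∈ B', f a * g b * ck p a b := by
        rw [← sum_subset hA' (f := fun a => ∑ b ∈ B, (if a ∈ A' then f a else 0) *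
          (if b ∈ B' then g b else 0) * (jacobiSym (a + b) p : ℂ)) (by
            intro a _ ha
            simp [ha])]
        refine sum_congr rfl fun a ha => ?_
        rw [← sum_subset hB' (f := fun b => (if a ∈ A' then f a else 0) *
          (if b ∈ B' then g b else 0) * (jacobiSym (a + b) p : ℂ)) (by
            intro b _ hb
            simp [hb])]
        refine sum_congr rfl fun b hb => ?_
        rw [if_pos ha, if_pos hb]
        rfl
      have e2 : ∑ a ∈ A, ‖(if a ∈ A' then f a else 0 : ℂ)‖ ^ 2 = ∑ a ∈ A', ‖f a‖ ^ 2 := by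
        rw [← sum_subset hA' (f := fun a => ‖(if a ∈ A' then f a else 0 : ℂ)‖ ^ 2) (by
            intro a _ ha
            simp [ha])]
        exact sum_congr rfl fun a ha => by rw [if_pos ha]
      have e3 : ∑ b ∈ B, ‖(if b ∈ B' then g b else 0 : ℂ)‖ ^ 2 = ∑ b ∈ B', ‖g b‖ ^ 2 := by
        rw [← sum_subset hB' (f := fun b => ‖(if b ∈ B' then g b else 0 : ℂ)‖ ^ 2) (by
            intro b _ hb
            simp [hb])]
        exact sum_congr rfl fun b hb => by rw [if_pos hb]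
      rw [e1, e2, e3] at h2
      refine h2.trans ?_
      have h3 : Real.sqrt ((A.card : ℝ) * B.card) ≤ q * Real.sqrt ((A'.card : ℝ) * B'.card) := by
        have h4 : (A.card : ℝ) * B.card ≤ q ^ 2 * ((A'.card : ℝ) * B'.card) := by
          calc (A.card : ℝ) * B.card ≤ (q * A'.card) * (q * B'.card) := by gcongr
            _ = _ := by ring
        calc Real.sqrt ((A.card : ℝ) * B.card) ≤
            Real.sqrt (q ^ 2 * ((A'.card : ℝ) * B'.card)) := Real.sqrt_le_sqrt h4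
          _ = _ := by rw [Real.sqrt_mul (by positivity), Real.sqrt_sq hq0.le]
      calc κ * Real.sqrt ((A.card : ℝ) * B.card) *
          (Real.sqrt (∑ a ∈ A', ‖f a‖ ^ 2) * Real.sqrt (∑ b ∈ B', ‖g b‖ ^ 2)) ≤
          κ * (q * Real.sqrt ((A'.card : ℝ) * B'.card)) *
            (Real.sqrt (∑ a ∈ A', ‖f a‖ ^ 2) * Real.sqrt (∑ b ∈ B', ‖g b‖ ^ 2)) := by gcongr
        _ = _ := by ring) v hv
    refine h1.trans ?_
    have h2 : (κ * q) ^ 2 ≤ 2 * κ * q ^ 2 := by
      have : κ ^ 2 ≤ κ := by nlinarith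
      calc (κ * q) ^ 2 = κ ^ 2 * q ^ 2 := by ring
        _ ≤ κ * q ^ 2 := by gcongr
        _ ≤ 2 * κ * q ^ 2 := by nlinarith [mul_pos hκ (pow_pos hq0 2)]
    gcongr
  have Zm : ∑ x ∈ B', (zr (ck p) A' x : ℝ) ≤ (2 * κ * q ^ 2) * A'.card * B'.card := by
    refine (ck_zeros hp A B A' B' hA' hB').trans ?_
    have h1 : (coin A B p : ℝ) ≤ κ * q ^ 2 * A'.card * B'.card := by
      refine Z.trans ?_
      calc κ * ((A.card : ℝ) * B.card) ≤ κ * ((q * A'.card) * (q * B'.card)) := by gcongr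
        _ = _ := by ring
    have h2 : (B'.card : ℝ) ≤ κ * q ^ 2 * A'.card * B'.card := by
      have h3 : (1 : ℝ) ≤ κ * q ^ 2 * A'.card := by
        have h4 : m ≤ q * A'.card := hmA.trans hcA2
        calc (1 : ℝ) ≤ κ * q * m := c1
          _ ≤ κ * q * (q * A'.card) := by gcongr
          _ = _ := by ring
      calc (B'.card : ℝ) = 1 * B'.card := (one_mul _).symm
        _ ≤ _ := by gcongr
    calc (B'.card : ℝ) + coin A B p ≤ κ * q ^ 2 * A'.card * B'.card +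
        κ * q ^ 2 * A'.card * B'.card := add_le_add h2 h1
      _ = _ := by ring
  have hirr := fun (τ : ℝ) (h1 : 0 < τ) (h2 : τ ≤ 1) => few_irregular' (ck p) A' B' le_rfl
    (ck_root p) hneA' hneB' (2 * κ * q ^ 2) (by positivity) Hm Zm k τ h1 h2
  have hBk : (0 : ℝ) < (B'.card : ℝ) ^ k := by positivity
  have hτ0 : 0 < 1 / q := by positivity
  have hτ1 : 1 / q ≤ 1 := by rw [div_le_one hq0]; linarith
  have h2k : ((2 : ℕ) : ℝ) ^ (2 * k) ≤ q ^ 2 := by
    calc ((2 : ℕ) : ℝ) ^ (2 * k) = ((2 : ℝ) ^ k) ^ 2 := by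
          push_cast
          rw [← pow_mul]
          congr 1
          ring
      _ ≤ q ^ 2 := by gcongr
  have hmain : (Set.ncard {b | b ∈ tup B' k ∧ ¬ Reg (ck p) A' 2 b (1 / q)} : ℝ) ≤
      (B'.card : ℝ) ^ k / q := by
    refine (hirr (1 / q) hτ0 hτ1).trans ?_
    have h1 : 5 * ((2 : ℕ) : ℝ) ^ (2 * k) * (2 * κ * q ^ 2) / (1 / q) ^ 2 ≤ 1 / q := by
      calc 5 * ((2 : ℕ) : ℝ) ^ (2 * k) * (2 * κ * q ^ 2) / (1 / q) ^ 2 ≤
          5 * q ^ 2 * (2 * κ * q ^ 2) / (1 / q) ^ 2 := by gcongr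
        _ = (10 * κ * q ^ 7) / q := by
            field_simp
            ring
        _ ≤ 1 / q := by gcongr
    calc _ ≤ 1 / q * (B'.card : ℝ) ^ k := mul_le_mul_of_nonneg_right h1 hBk.le
      _ = _ := by ring
  refine ⟨?_, fun l hl σ hσ => ?_⟩
  · refine le_trans (Nat.cast_le.2 (Set.ncard_le_ncard ?_ ?_)) hmain
    · rintro b ⟨hb, hbal⟩
      exact ⟨Fintype.mem_piFinset.2 hb, fun hreg => hbal (balanced_of p A' b (1 / q) hreg)⟩
    · exact (finite_toSet (tup B' k)).subset fun b hb => hb.1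
  · -- matrices
    have h1 : (Set.ncard {b | b ∈ tup B' k ∧ ¬ Reg (ck p) A' 2 b (1 / 2)} : ℝ) ≤
        1 / 3 * (B'.card : ℝ) ^ k := by
      have hle : 1 / q ≤ 1 / 3 := one_div_le_one_div_of_le (by norm_num) hq
      have h2 : (Set.ncard {b | b ∈ tup B' k ∧ ¬ Reg (ck p) A' 2 b (1 / 2)} : ℝ) ≤
          (B'.card : ℝ) ^ k / q := by
        refine le_trans (Nat.cast_le.2 (Set.ncard_le_ncard ?_ ?_)) hmain
        · rintro b ⟨hb, hreg⟩
          refine ⟨hb, fun hcon => hreg fun ρ hρ => (hcon ρ hρ).trans ?_⟩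
          exact mul_le_mul_of_nonneg_right (by linarith) (by positivity)
        · exact (finite_toSet (tup B' k)).subset fun b hb => hb.1
      refine h2.trans ?_
      calc (B'.card : ℝ) ^ k / q = 1 / q * (B'.card : ℝ) ^ k := by ring
        _ ≤ _ := mul_le_mul_of_nonneg_right hle hBk.le
    have hkq : (k : ℝ) ≤ q := by
      have h6 : k ≤ 2 ^ k := Nat.lt_two_pow_self.le
      have h7 : (k : ℝ) ≤ (2 : ℝ) ^ k := by exact_mod_cast h6
      exact h7.trans hk
    have h3 : (k : ℝ) ^ 2 ≤ 1 / 3 * B'.card := by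
      have h4 : m ≤ q * B'.card := hmB.trans hcB2
      have h5 : 3 * q ^ 2 * q ≤ B'.card * q := by
        calc 3 * q ^ 2 * q = 3 * q ^ 3 := by ring
          _ ≤ m := c4
          _ ≤ q * B'.card := h4
          _ = _ := mul_comm _ _
      have h6 : 3 * q ^ 2 ≤ B'.card := le_of_mul_le_mul_right h5 hq0
      have h7 : (k : ℝ) ^ 2 ≤ q ^ 2 := pow_le_pow_left₀ (Nat.cast_nonneg _) hkq 2
      linarith
    have h5 : (Set.ncard {b : Fin k → ℤ | b ∈ tup B' k ∧ ¬ Function.Injective b} : ℝ) ≤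
        1 / 3 * (B'.card : ℝ) ^ k := by
      have h7 : (Set.ncard {b : Fin k → ℤ | b ∈ tup B' k ∧ ¬ Function.Injective b} : ℝ) * B'.card ≤
          (1 / 3 * (B'.card : ℝ) ^ k) * B'.card := by
        calc _ ≤ (k : ℝ) ^ 2 * (B'.card : ℝ) ^ k := few_repeated B' hneB' k
          _ ≤ (1 / 3 * B'.card) * (B'.card : ℝ) ^ k := mul_le_mul_of_nonneg_right h3 hBk.le
          _ = _ := by ring
      exact le_of_mul_le_mul_right h7 hB'0
    obtain ⟨a, b, ha, hb, haA, hbB, hab⟩ := SP.matrices (ck p) A' B' (m := 2) (by norm_num) hl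
      (by linarith) (fun i j => (σ i j : ℂ)) fun i j => sq_one_cast _ (hσ i j)
    refine ⟨a, b, ha, hb, haA, hbB, fun i j => ?_⟩
    have := hab i j
    simp only [ck] at this
    exact_mod_cast this

end Pool.Agent.V7H48.IP
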